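import Mathlib
import Pool.Agent.Helper28.Para.Defs

/-! # Inertness and coherence for parafree groups: definitions (project PC, MP_1f931d_al)

`lcs G n = γ_{n+1}(G)`, `IsParafreeOn X G` come from `Helper28.Para.Defs`. -/

namespace Pool.Agent.Helper11.PC

universe u v w

open MonoidAlgebra

/-- `gl g` is the group element `g` in the rational group algebra. -/
noncomputable abbrev gl {G : Type u} [Group G] (g : G) : MonoidAlgebra ℚ G :=
  MonoidAlgebra.single g (1 : ℚ)

/-- Right multiplication of an arbitrary function `G → ℚ` by an element of the group algebra: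
`(f z)(x) = Σ_a f(x a⁻¹) z(a)`. -/
noncomputable def rmul {G : Type u} [Group G] (f : G → ℚ) (z : MonoidAlgebra ℚ G) : G → ℚ :=
  fun x => z.coeff.sum fun a q => f (x * a⁻¹) * q

open Classical in
/-- The function with value `q` at `g` and `0` elsewhere. -/
noncomputable def mono {G : Type u} (g : G) (q : ℚ) : G → ℚ := fun x => if x = g then q else 0

/-- Convolution of functions on a group (`0` at points where the sum is not finite). -/
noncomputable def conv {G : Type u} [Group G] (f g : G → ℚ) : G → ℚ :=
  fun x => ∑ᶠ a : G, f a * g (a⁻¹ * x)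

/-- Push-forward of a function along a map with finite fibres on the support. -/
noncomputable def push {G : Type u} {N : Type v} (p : G → N) (f : G → ℚ) : N → ℚ :=
  fun y => ∑ᶠ x : {x : G // p x = y}, f x

/-- `f` is tame for `p`: each fibre of `p` meets the support of `f` in a finite set and the image
of the support is (partially) well ordered. -/
structure Tame {G : Type u} {N : Type v} [Preorder N] (p : G → N) (f : G → ℚ) : Prop where
  fib : ∀ y : N, {x : G | p x = y ∧ f x ≠ 0}.Finite
  pwo : (p '' Function.support f).IsPWO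

/-- The augmentation of the rational group algebra. -/
noncomputable def augHom (N : Type u) [Group N] : MonoidAlgebra ℚ N →ₐ[ℚ] ℚ :=
  MonoidAlgebra.lift ℚ ℚ N (1 : N →* ℚ)

/-- The augmentation ideal (a two-sided ideal). -/
noncomputable def aug (N : Type u) [Group N] : Ideal (MonoidAlgebra ℚ N) :=
  RingHom.ker (augHom N)

instance (N : Type u) [Group N] : (aug N).IsTwoSided := by
  unfold aug; infer_instance

/-- Magnus coefficients of the free group on `X`: there are integer `coefficients` `c g v`
(`g` in the free group, `v` a word in `X`) which are multiplicative and characterize the lower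
central series. -/
def MagF (X : Type v) : Prop :=
  ∃ c : FreeGroup X → List X → ℚ, (∀ g, c g [] = 1) ∧
    (∀ g h v, c (g * h) v =
      ∑ i ∈ Finset.range (v.length + 1), c g (v.take i) * c h (v.drop i)) ∧
    (∀ g v, ∃ z : ℤ, c g v = z) ∧
    (∀ g, ∃ X0 : Finset X, ∀ v, c g v ≠ 0 → ∀ x ∈ v, x ∈ X0) ∧
    (∀ n g, g ∈ Helper28.Para.lcs (FreeGroup X) n ↔
      ∀ v, v ≠ [] → v.length ≤ n → c g v = 0)

/-- A Magnus system on `Γ`: `coefficients` `c g v` (`g ∈ Γ`, `v` a word in `X`), multiplicative
and separating for the words `v` whose length satisfies `P` (`P` is closed downwards). -/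
structure MagnusSys (X : Type v) (P : ℕ → Prop) (Γ : Type u) [Group Γ]
    (c : Γ → List X → ℚ) : Prop where
  down : ∀ i j, i ≤ j → P j → P i
  zero : P 0
  nil : ∀ g, c g [] = 1
  mul : ∀ g h v, P v.length →
    c (g * h) v = ∑ i ∈ Finset.range (v.length + 1), c g (v.take i) * c h (v.drop i)
  sep : ∀ g h, (∀ v, P v.length → c g v = c h v) → g = h

/-- `W` is a system of Fox coefficients of `c` with respect to the elements `b j`: for every left
module `M` over the rational group algebra and every derivation `δ : G → M`,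
`δ(c) = Σ_j W_j δ(b_j)`. -/
def IsFox {G : Type u} [Group G] {n : ℕ} (b : Fin n → G) (c : G)
    (W : Fin n → MonoidAlgebra ℚ G) : Prop :=
  ∀ (M : Type u) [AddCommGroup M] [Module (MonoidAlgebra ℚ G) M] (δ : G → M),
    (∀ g h, δ (g * h) = δ g + gl g • δ h) → δ c = ∑ j, W j • δ (b j)

/-- The images of the elements `a j` in the abelianization of `G` are linearly independent
over the integers. -/
def HomIndep {G : Type u} [Group G] {r : ℕ} (a : Fin r → G) : Prop :=
  LinearIndependent ℤ
    (fun j => (Additive.ofMul (Abelianization.of (a j)) : Additive (Abelianization G)))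

/-- The growth of the group `N` is polynomial: for every finite set `S` the number of products of
`j` elements of `S` is at most `C (j+1)^d`. -/
def PolyGrowth (N : Type u) [Group N] : Prop :=
  ∀ S : Finset N, ∃ C d : ℕ, ∀ j : ℕ,
    ({x : N | ∃ l : List N, l.length = j ∧ (∀ z ∈ l, z ∈ S) ∧ l.prod = x}).ncard ≤
      C * (j + 1) ^ d

/-- The left Ore condition. -/
def LeftOre (R : Type u) [Ring R] : Prop :=
  ∀ a b : R, a ≠ 0 → b ≠ 0 → ∃ x y : R, x ≠ 0 ∧ x * a = y * b

/-- Existence of derivations on free groups with given values on the generators. -/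
def FreeDer (Y : Type v) (M : Type u) [AddCommGroup M] : Prop :=
  ∀ (ρ : FreeGroup Y →* AddMonoid.End M) (lam : Y → M), ∃ δ : FreeGroup Y → M,
    (∀ y, δ (FreeGroup.of y) = lam y) ∧ (∀ g h, δ (g * h) = δ g + ρ g (δ h))

/-- Geodesically convex sets of vertices of a graph. -/
def GConvex {V : Type w} (T : SimpleGraph V) (S : Set V) : Prop :=
  ∀ a ∈ S, ∀ b ∈ S, ∀ c, T.dist a c + T.dist c b = T.dist a b → c ∈ S

/-- Projections to convex sets (holds in trees, packet TPROJ). -/
def TreeProj {V : Type w} (T : SimpleGraph V) : Prop :=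
  ∀ (S : Set V), GConvex T S → S.Nonempty → ∀ o : V,
    ∃ p ∈ S, ∀ q ∈ S, T.dist o q = T.dist o p + T.dist p q

/-- Points between two given points are linearly ordered (holds in trees, packet TBTW). -/
def TreeBtw {V : Type w} (T : SimpleGraph V) : Prop :=
  ∀ o q p₁ p₂ : V, T.dist o q = T.dist o p₁ + T.dist p₁ q →
    T.dist o q = T.dist o p₂ + T.dist p₂ q → T.dist o p₁ ≤ T.dist o p₂ →
    T.dist p₁ q = T.dist p₁ p₂ + T.dist p₂ q

/-- Finite sets are contained in finite convex sets (holds in trees, packet THULL). -/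
def TreeHull {V : Type w} (T : SimpleGraph V) : Prop :=
  ∀ U : Set V, U.Finite → ∃ S : Set V, S.Finite ∧ GConvex T S ∧ U ⊆ S

/-- The chain lemma (packet CHAIN): `H` acts on the graph `T`, `S` is a convex set of vertices,
`Sig` a set of elements `s` with `S ∩ sS ≠ ∅`, closed under those products `s t` for which there
is `y ∈ S` with `t y ∈ S` and `s t y ∈ S`, and `σ` is multiplicative for such pairs.  Then each
product `g` of elements of `Sig` with `S ∩ gS ≠ ∅` is in `Sig` and `σ` respects the product. -/
def ChainLemma {V : Type w} (T : SimpleGraph V) (H : Type u) [Group H] [MulAction H V]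
    (Q : Type v) [Group Q] : Prop :=
  ∀ (S : Set V), GConvex T S → S.Nonempty → ∀ (Sig : Set H), (1 : H) ∈ Sig →
    (∀ s ∈ Sig, ∃ y ∈ S, s • y ∈ S) →
    (∀ s ∈ Sig, ∀ t ∈ Sig, (∃ y ∈ S, t • y ∈ S ∧ (s * t) • y ∈ S) → s * t ∈ Sig) →
    ∀ (σ : H → Q),
    (∀ s ∈ Sig, ∀ t ∈ Sig, (∃ y ∈ S, t • y ∈ S ∧ (s * t) • y ∈ S) → σ (s * t) = σ s * σ t) →
    ∀ L : List H, (∀ s ∈ L, s ∈ Sig) → (∃ y ∈ S, L.prod • y ∈ S) →
      L.prod ∈ Sig ∧ (L.map σ).prod = σ L.prod

end Pool.Agent.Helper11.PC
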