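import Pool.Agent.Helper11.PC.Defs

/-! # Project PC (MP_1f931d_al): statements of the packets, with complete proofs in the docstrings

Each packet is independent.  A packet may assume the statement of another packet as a hypothesis
(the `Prop`s `MagF`, `FreeDer`, `TreeProj`, `TreeBtw`, `TreeHull`, `ChainLemma`, `PolyGrowth`,
`LeftOre` of `Defs` are there for this).  Write your proof in `Pool/Agent/HelperNN/PC/<NAME>.lean`,
importing `Pool.Agent.Helper11.PC.Defs` (not this file), with exactly the statement given here.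
`lcs G n = γ_{n+1}(G)`. -/

namespace Pool.Agent.Helper11.PC

universe u v w

open MonoidAlgebra Pool.Agent.Helper28.Para
open scoped Pointwise

/-! ## Algebra -/

/-- **FDER.**  Proof.  In the group `(M × FreeGroup Y)` with `(m,g)(m',g') = (m + ρ(g) m', g g')`
(a semidirect product `Multiplicative M ⋊ FreeGroup Y`; `ρ(g)` is invertible because `ρ` is a
homomorphism from a group), lift `y ↦ (lam y, y)` to a homomorphism `Φ` from the free group; its
second component is the identity (uniqueness on generators) and its first component is `δ`. -/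
theorem FDER (Y : Type v) (M : Type u) [AddCommGroup M] : FreeDer Y M := sorry

/-- **FOX.**  Proof.  `Subgroup.closure_induction`: for `b j` take `W = Pi.single j 1`; for `1`
take `0` (`δ 1 = δ 1 + δ 1`, `gl 1 = 1`); for `x y` take `W_x + gl x * W_y`; for `x⁻¹` take
`-gl x⁻¹ * W_x`.  Supports stay in the subgroup. -/
theorem FOX {G : Type u} [Group G] {n : ℕ} (b : Fin n → G) (c : G)
    (hc : c ∈ Subgroup.closure (Set.range b)) :
    ∃ W : Fin n → MonoidAlgebra ℚ G, IsFox b c W ∧
      ∀ j, ∀ x ∈ (W j).coeff.support, x ∈ Subgroup.closure (Set.range b) := sorry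

/-- **S34.**  Here `C = A ∩ B`, `c` is a free basis of `C`, `y` lists `m` different basis elements,
`α` are Fox coefficients of the `c_{y i}` with respect to the generators `a` of `A` (only the
identity `hα` in the group algebra is used), `f i` are arbitrary functions supported in `B`.
Proof.  Write `c_i` for `c (y i)`.  (1) Let `K = ℚC ⊆ ℚG`.  For `l : Fin m` let `∂_l : C → ℚG`
(values supported in `C`) be the derivation with `∂_l(x x') = ∂_l(x) + x ∂_l(x')`,
`∂_l(c_i) = 1` if `i = l` and `∂_l = 0` on all other basis elements (`hder` and the isomorphism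
`FreeGroup Y ≃ C`; take e.g. `M` = the group algebra of `G`, `ρ(g)` = left multiplication by the
image of `g`; the values are supported in `C` because `C` is generated by the `c`, or take `M` = the
group algebra of `C`).  (2) Choose a map `σ : A → C` with `σ(c x) = c σ(x)` for `c ∈ C`, `x ∈ A`
and `σ(c) = c` for `c ∈ C` (choose a representative `ρ(x)` of each coset `C x`, depending only on
the coset, with `ρ = 1` for the coset `C`, and put `σ(x) = x ρ(x)⁻¹`).  Put
`φ(x) = ∂_l(σ(x))` for `x ∈ A` (and `0` outside `A`) and let `L : ℚG → ℚG` be its linear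
extension.  For `c ∈ C`, `x ∈ A`: `φ(c x) = ∂_l(c) + c φ(x)`.  So
`ψ_j(x) := φ(x a_j) - φ(x)` satisfies `ψ_j(c x) = c ψ_j(x)` (`c ∈ C`, `x ∈ A`).
(3) Apply `L` to `hα i`: `∂_l(c_i) = L(c_i - 1) = Σ_j Σ_{x ∈ A} α_ij(x) ψ_j(x)`; the left side is
`1` if `i = l`, else `0`.
(4) Hence, with the right multiplication `rmul` (which is additive, and `rmul f 1 = f`,
`rmul (rmul f z) z' = rmul f (z z')`), `f_l = Σ_i rmul f_i (∂_l(c_i)) =
Σ_j Σ_i Σ_{x ∈ A} α_ij(x) rmul f_i (ψ_j(x))`.  Group the `x ∈ A` by cosets `C ρ`: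
`x = c ρ`, `ψ_j(x) = c ψ_j(ρ)`, so the coset of `ρ` contributes
`rmul (Σ_i rmul f_i (Σ_{c ∈ C} α_ij(cρ) c)) (ψ_j(ρ))`.
(5) `h := Σ_i rmul f_i (Σ_{c ∈ C} α_ij(cρ) c)` is `0`: it is supported in `B` (`C ≤ B`), and for
`z ∈ B`: `h(z) = Σ_i Σ_{c ∈ C} α_ij(cρ) f_i(z c⁻¹)`, while `hf j (zρ)` reads
`0 = Σ_i Σ_{a} f_i(z ρ a⁻¹) α_ij(a)`; here only `a ∈ A` matter, and `f_i(zρa⁻¹) ≠ 0` implies
`ρ a⁻¹ ∈ B ∩ A = C`, i.e. `a ∈ Cρ`; so this sum is `h(z)`.  Hence `f_l = 0`. -/
theorem S34 {G : Type u} [Group G] (A B C : Subgroup G) (hC : C = A ⊓ B) {r m : ℕ}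
    (a : Fin r → G) (ha : Subgroup.closure (Set.range a) = A)
    {Y : Type v} (c : Y → G) (hc : Function.Injective (FreeGroup.lift c))
    (hcC : Subgroup.closure (Set.range c) = C) (y : Fin m → Y) (hy : Function.Injective y)
    (hder : ∀ (M : Type u) [AddCommGroup M], FreeDer Y M)
    (α : Fin m → Fin r → MonoidAlgebra ℚ G)
    (hαA : ∀ i j, ∀ x ∈ (α i j).coeff.support, x ∈ A)
    (hα : ∀ i, gl (c (y i)) - 1 = ∑ j, α i j * (gl (a j) - 1))
    (f : Fin m → G → ℚ) (hfB : ∀ i x, f i x ≠ 0 → x ∈ B)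
    (hf : ∀ j x, ∑ i, rmul (f i) (α i j) x = 0) : ∀ i, f i = 0 := sorry

/-- **LINALG.**  `K` is a subring all of whose nonzero elements are invertible in it.
Proof.  `K` is a division ring (`DivisionRing.ofIsUnitOrEqZero` or a direct construction) and
the left `K`-linear map `K^m → K^n`, `f ↦ (Σ_i f_i W_ij)_j` has a nonzero kernel as `n < m`
(a rank argument), or direct elimination by induction on `n`. -/
theorem LINALG {R : Type u} [Ring R] (K : Subring R) (h1 : (1 : R) ≠ 0)
    (hK : ∀ x ∈ K, x ≠ 0 → ∃ z ∈ K, x * z = 1 ∧ z * x = 1) {m n : ℕ} (hmn : n < m)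
    (W : Fin m → Fin n → R) (hW : ∀ i j, W i j ∈ K) :
    ∃ f : Fin m → R, f ≠ 0 ∧ (∀ i, f i ∈ K) ∧ ∀ j, ∑ i, f i * W i j = 0 := sorry

/-- **ORELIN.**  Proof.  Induction on `n` (for all `m`, `W`, `α`, `f`).  `n = 0`: some
`α i ≠ 0`, take `u = Pi.single i 1`.  Step: let `w_i = W i (last)`.  If all `w_i = 0` drop the last
column.  Otherwise fix `k` with `w_k ≠ 0`.  For `i ≠ k` choose `x_i ≠ 0`, `y_i` with
`x_i w_i = y_i w_k` (Ore condition if `w_i ≠ 0`; `x_i = 1`, `y_i = 0` if `w_i = 0`).  New rows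
`(i ≠ k)`: `W'_ij = x_i W_ij - y_i W_kj`, `α'_i = x_i α_i - y_i α_k`; the last column of `W'` is
`0`.  Put `f'_i = f_i ι(x_i)⁻¹` (inverse in `E`).  From `Σ_i f_i ι(w_i) = 0` we get
`(f_k + Σ_{i≠k} f'_i ι(y_i)) ι(w_k) = 0`, so `f_k = - Σ_{i ≠ k} f'_i ι(y_i)`.  Hence
`Σ_{i≠k} f'_i ι(W'_ij) = Σ_i f_i ι(W_ij) = 0` and `Σ_{i≠k} f'_i ι(α'_i) = Σ_i f_i ι(α_i) ≠ 0`.
The induction hypothesis (one column less; the rows `i ≠ k` are indexed by `Fin (m-1)` via
`Fin.succAbove k`, or do the induction with rows indexed by an arbitrary finite type) gives `u'`; put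
`u_i = u'_i x_i` for `i ≠ k`, `u_k = - Σ u'_i y_i`. -/
theorem ORELIN {R : Type u} {E : Type v} [Ring R] [Ring E] (ι : R →+* E)
    (hι : Function.Injective ι) (h1 : (1 : E) ≠ 0)
    (hE : ∀ x : E, x ≠ 0 → ∃ z, x * z = 1 ∧ z * x = 1) (hore : LeftOre R) {m n : ℕ}
    (W : Fin m → Fin n → R) (α : Fin m → R) (f : Fin m → E)
    (hW : ∀ j, ∑ i, f i * ι (W i j) = 0) (hα : ∑ i, f i * ι (α i) ≠ 0) :
    ∃ u : Fin m → R, (∀ j, ∑ i, u i * W i j = 0) ∧ ∑ i, u i * α i ≠ 0 := sorry

/-- **OREG.**  Proof.  Suppose `x a = y b` implies `x = 0` (then also `y b = 0`, `y = 0`).  Let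
`S` be the union of the supports of `a`, `b`.  For `j` and `v : Fin j → Bool` (or
`v ∈ List Bool` of length `j`) let `M_v` be the product of `j` factors `a`, `b` prescribed by `v`.
`M_v` is supported in the set `S_j` of products of `j` elements of `S`.  The `2^j` elements `M_v`
are linearly independent over `ℚ`: by induction on `j`, grouping by the last letter, a relation
reads `x a + y b = 0` with `x`, `y` combinations of the words of length `j - 1`; so `x = y = 0`
and the coefficients vanish by induction.  They live in the space of elements supported in `S_j`,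
of dimension `|S_j| ≤ C (j+1)^d`.  For large `j` this contradicts `2^j > C (j+1)^d`
(`S_j` is finite since it is the image of a finite set of lists). -/
theorem OREG {N : Type u} [Group N] [NoZeroDivisors (MonoidAlgebra ℚ N)] (hgr : PolyGrowth N) :
    LeftOre (MonoidAlgebra ℚ N) := sorry

/-- **GROW.**  Proof.  Let `S` be finite (the case `S = ∅` is trivial).  Choose a finite set `X0`
of letters such that for all `z ∈ S`, `c z v ≠ 0` and `|v| ≤ D` imply that all letters of `v` are
in `X0`; the set `V` of words over `X0` of length `≤ D` is finite; choose `R ≥ 1` with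
`|c z v| ≤ R` for `z ∈ S`, `v ∈ V` (so for all `v` with `|v| ≤ D`).  For a product `g` of `j`
elements of `S`: (a) `c g v ≠ 0`, `|v| ≤ D` imply that the letters of `v` are in `X0`;
(b) `|c g v| ≤ (j R)^{|v|}` for `|v| ≤ D`: induction on `j`, `g z`:
`|c (g z) v| ≤ Σ_{i ≤ |v|} (jR)^i R^{|v|-i} = R^{|v|} Σ_i j^i ≤ (R (j+1))^{|v|}` by the binomial
theorem, where for `drop i v` nonempty `|c z (drop i v)| ≤ R ≤ R^{|v|-i}` and `c z [] = 1`
(for `j = 0`, `g = 1` and `c 1 v = 0` for `v ≠ []`, `|v| ≤ D`, by `mul` and induction on `|v|`: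
`c 1 v = c (1*1) v = 2 c 1 v + Σ (shorter) = 2 c 1 v`).  By `sep`, `g ↦ (c g v)_{v ∈ V}` is
injective on the products of `j` elements, with integer values in `[-(jR)^D - 1, (jR)^D + 1]`, so
their number is at most `(2 (jR)^D + 3)^{|V|} ≤ ((2 R^D + 3)(j+1)^D)^{|V|}`. -/
theorem GROW {X : Type v} {Γ : Type u} [Group Γ] {D : ℕ} {c : Γ → List X → ℚ}
    (h : MagnusSys X (fun k => k ≤ D) Γ c) (hint : ∀ g v, v.length ≤ D → ∃ z : ℤ, c g v = z)
    (hfin : ∀ g, ∃ X0 : Finset X, ∀ v, v.length ≤ D → c g v ≠ 0 → ∀ x ∈ v, x ∈ X0) :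
    PolyGrowth Γ := sorry

/-- **SEP.**  Proof.  For `p : Γ → ℚ` let `p̃ : ℚΓ → ℚ` be the linear extension and
`(Δ_g p)(h) = p(h g) - p(h)`; then `p̃(z (g - 1)) = (Δ_g p)~(z)`.  Define sets of functions
`P 0 = {0}`, `P (q+1) = {p | ∀ g, Δ_g p ∈ P q}` (linear subspaces, `P q ⊆ P (q+1)`).
(1) `p ∈ P q`, `z ∈ ω^q` (`ω = aug Γ`) imply `p̃(z) = 0`: induction on `q`; `ω^{q+1} = ω^q ω` is
additively generated by products `z z'` with `z ∈ ω^q`, `z' ∈ ω`, and `z'` is a `ℚ`-combination of
elements `g - 1` (as its coefficients have sum `0`); so `p̃(z z')` is a combination of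
`(Δ_g p)~(z) = 0`.
(2) `p ∈ P q`, `p' ∈ P q'` imply `p p' ∈ P (q + q')`: induction on `q + q'` using
`Δ_g(p p') = Δ_g p · p' + p · Δ_g p' + Δ_g p · Δ_g p'` (if `q = 0` or `q' = 0` the product is `0`).
(3) For `|v| ≤ D` the function `c · v` is in `P (|v| + 1)`: induction on `|v|`:
`c (h g) v - c h v = Σ_{i < |v|} c h (take i v) · c g (drop i v)` (term `i = |v|` is `c h v`), a
linear combination of functions `c · (take i v)`, `i < |v|`.  Constants are in `P 1`.
(4) Let `z ≠ 0` be in `ω^q` for all `q`, choose `g₁` in its support; for each other `g` in the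
support choose `v_g` with `|v_g| ≤ D`, `c g₁ v_g ≠ c g v_g` (`sep`) and let `p` be the product of
the functions `h ↦ c h v_g - c g v_g`.  Then `p ∈ P q` for some `q`, `p(g₁) ≠ 0`, `p(g) = 0` for
the other `g`, so `0 = p̃(z) = z(g₁) p(g₁) ≠ 0`. -/
theorem SEP {X : Type v} {Γ : Type u} [Group Γ] {D : ℕ} {c : Γ → List X → ℚ}
    (h : MagnusSys X (fun k => k ≤ D) Γ c) (z : MonoidAlgebra ℚ Γ)
    (hz : ∀ q : ℕ, z ∈ (aug Γ) ^ q) : z = 0 := sorry

/-- **DERF.**  Proof.  `hder` with `M = R`, `ρ(g) = ` left multiplication by `θ(g)` gives `δ`.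
Claim: for all `w ∈ lcs F i`: `θ(w) - 1 ∈ J^{i+1}` and `δ(w) ∈ J^i`.  For `i = 0` clear.  The set
of `w` with `θ(w) - 1 ∈ J^{i+2}` and `δ(w) ∈ J^{i+1}` is a subgroup (powers of `J` are two-sided
ideals; `θ(ww')-1 = (θ(w)-1)θ(w') + θ(w')-1`, `δ(w⁻¹) = -θ(w⁻¹)δ(w)`), so it is enough to treat
`c = ⁅u, v⁆ = u v u⁻¹ v⁻¹` with `u ∈ lcs F i`.  Since `c v u = u v`:
`θ(c) - 1 = ((θ(u)-1)(θ(v)-1) - (θ(v)-1)(θ(u)-1)) θ(vu)⁻¹ ∈ J^{i+2}` and
`δ(c) = δ(uv) - δ(vu) - (θ(c)-1) δ(vu)`,
`δ(uv) - δ(vu) = (θ(u)-1) δ(v) - (θ(v)-1) δ(u) ∈ J^{i+1}`.  At `i = q`: `δ(w) ∈ J^q = ⊥`. -/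
theorem DERF {X : Type v} {R : Type u} [Ring R] (hder : FreeDer X R) (J : Ideal R)
    [J.IsTwoSided] (q : ℕ) (hJ : J ^ q = ⊥) (θ : FreeGroup X →* R) (hθ : ∀ g, θ g - 1 ∈ J)
    (lam : X → R) :
    ∃ δ : FreeGroup X → R, (∀ x, δ (FreeGroup.of x) = lam x) ∧
      (∀ g h, δ (g * h) = δ g + θ g * δ h) ∧ (∀ g ∈ lcs (FreeGroup X) q, δ g = 0) := sorry

/-- **DERX.**  (You may take as hypothesis the statement of DERF, for `X` and all rings
`R : Type u`.)  Proof.  Let `N = G/lcs G n`, `ω = aug N`, `R = ℚN/ω^q`.  Take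
`s : FreeGroup X →* G` from `Helper28.Para.exists_good_hom hG` (`Helper28/Para/Embed.lean`): (a)
`s w ∈ lcs G k → w ∈ lcs F k`; (b) for all `k`, `g` there is `w` with `(s w)⁻¹ g ∈ lcs G k`.
Let `θ(w) ∈ R` be the class of `s(w) mod lcs G n`, `J` the image of `ω` in `R` (`J^q = ⊥`,
`θ(w) - 1 ∈ J`), `lam x = χ(s(x)) · 1`.  DERF gives `δ_F`, vanishing on `lcs F q`.
Let `Q = max n q`.  For `g ∈ G` choose `w_g` with `(s w_g)⁻¹ g ∈ lcs G Q` and put
`δ(g) = δ_F(w_g)`.  If `(s w)⁻¹ g ∈ lcs G Q` also, then `k = w⁻¹ w_g` has `s k ∈ lcs G Q`, so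
`k ∈ lcs F Q ⊆ lcs F q` and `δ_F(w_g) = δ_F(w) + θ(w) δ_F(k) = δ_F(w)`.  So `δ(s w) = δ_F(w)`, and
`w_g w_h` may be used for `gh` (normality), which gives the derivation property (`θ(w_g)` is the
class of `g` because `Q ≥ n`).
Augmentation: if `q = 0` then `R = 0` and `y = χ(g) · 1` works.  If `q ≥ 1`, `ω^q ≤ ω`, so
`augHom` induces `ε : R → ℚ`, and `η = ε ∘ δ - χ : G → ℚ` is additive on products; it vanishes
on `s(of x)` for all `x`, so on `s(F)`; it vanishes on commutators so on `lcs G 1`; and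
`G = s(F) · lcs G 1` by (b).  So `ε(δ(g)) = χ(g)`; let `y` be any representative of `δ(g)`. -/
theorem DERX {X : Type v} {G : Type u} [Group G] (hG : IsParafreeOn X G) (χ : G → ℚ)
    (hχ : ∀ g h, χ (g * h) = χ g + χ h) (n q : ℕ) :
    ∃ δ : G → (MonoidAlgebra ℚ (G ⧸ lcs G n)) ⧸ (aug (G ⧸ lcs G n)) ^ q,
      (∀ g h, δ (g * h) =
        δ g + Ideal.Quotient.mk _ (gl (QuotientGroup.mk g : G ⧸ lcs G n)) * δ h) ∧
      ∀ g, ∃ y, δ g = Ideal.Quotient.mk _ y ∧ augHom _ y = χ g := sorry

/-- **CHI.**  Proof.  `A = Additive (Abelianization G)` is a `ℤ`-module and `ℚ` is an injective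
(divisible) `ℤ`-module, so the linear map `span ℤ {a_j} → ℚ` dual to `a_l` extends to `A`
(`Module.Baer`, `AddCommGrpCat.injective_of_divisible`, ...); or: the elements `1 ⊗ a_j` of
`ℚ ⊗ A` are linearly independent over `ℚ` and one extends them to a basis. -/
theorem CHI {G : Type u} [Group G] {r : ℕ} (a : Fin r → G) (h : HomIndep a) (l : Fin r) :
    ∃ χ : G → ℚ, (∀ g h, χ (g * h) = χ g + χ h) ∧ ∀ j, χ (a j) = if j = l then 1 else 0 := sorry

/-- **MAGF.**  Proof.  `c g v = (mag ℚ g : NC X ℚ) v` with `mag`, `NC` from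
`Pool/Agent/Helper7/Comm/MagnusDefs.lean`, `NC.lean` (see also `Pool/Agent/Helper28/Para/
Inject.lean`, where `mem_lcs_iff` is the last claim for finite `X : Type`, and
`exists_finite_Sup`).  Product formula: `(f * g) v = Σ_i f (take i v) g (drop i v)` by induction on
`v` from `NC.mul_cons`.  Integrality and finiteness of the letters: both sets of group elements
are subgroups containing the generators (`invLetter` has integer coefficients).  Lower central
series: let `w ∈ FreeGroup X` and let `X0` be a finite set of letters with `w` in the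
subgroup generated by `X0`, `X0 ≃ Fin k`; the retraction `κ : FreeGroup X → FreeGroup (Fin k)`
(other letters to `1`) and `ι : FreeGroup (Fin k) → FreeGroup X` satisfy `ι(κ(w)) = w`; so
`w ∈ lcs n ↔ κ(w) ∈ lcs n` (homomorphisms map `lcs n` into `lcs n`), and `c (ι u) v` is
`c u v'` if `v` is the word `v'` with letters in `X0`, and `0` if some letter is not in `X0`
(`ι` induces a ring homomorphism on series, or induction over the subgroup).  Now use
`mem_lcs_iff` for `Fin k` (`OrdGE (fun _ => 1) (n+1) (mag w - 1)`: all coefficients of words of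
length `1..n` vanish). -/
theorem MAGF (X : Type v) : MagF X := sorry

/-- **MAGG.**  Proof.  Let `c_F` be as in `MagF`, `s` from `Helper28.Para.exists_good_hom hG`
(`Helper28/Para/Embed.lean`): (a) `s w ∈ lcs G k → w ∈ lcs F k`; (b) for all `k`, `g` there is `w`
with `(s w)⁻¹ g ∈ lcs G k`.  Fact 1: if `w⁻¹ w' ∈ lcs F n` and `|v| ≤ n` then
`c_F w v = c_F w' v` (product formula for `w' = w k`, `c_F k u = 0` for `0 < |u| ≤ n`).
Fact 2: conversely if `c_F w v = c_F w' v` for all `|v| ≤ n` then for `0 < |v| ≤ n`: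
`c_F (w⁻¹w') v = Σ_i c_F w⁻¹ (take i v) c_F w' (drop i v) = Σ_i c_F w⁻¹ (take) c_F w (drop) =
c_F 1 v = 0`, so `w⁻¹w' ∈ lcs F n`.  For `g ∈ G` and `n` choose `w(g,n)` with
`(s w(g,n))⁻¹ g ∈ lcs G n` and put `c g v = c_F (w(g,|v|)) v`.  If `(s w)⁻¹ g ∈ lcs G n` for some
`n ≥ |v|` then `c g v = c_F w v` (by (a) and Fact 1).  So: `c g [] = 1`, integrality and
finiteness are inherited; the product formula follows since `w(g,n) w(h,n)` may be used for `gh`
(normality of `lcs G n`), `n = |v|`.  Last claim: with `w = w(g,n)`, `w' = w(h,n)`: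
`g⁻¹h ∈ lcs G n ↔ s(w)⁻¹ s(w') ∈ lcs G n ↔ w⁻¹w' ∈ lcs F n ↔ ∀ |v| ≤ n, c g v = c h v`.
`sep` follows from it and `hG.resNilpotent`. -/
theorem MAGG {X : Type v} {G : Type u} [Group G] (hG : IsParafreeOn X G) (hX : MagF X) :
    ∃ c : G → List X → ℚ, MagnusSys X (fun _ => True) G c ∧
      (∀ g v, ∃ z : ℤ, c g v = z) ∧
      (∀ g n, ∃ X0 : Finset X, ∀ v, v.length ≤ n → c g v ≠ 0 → ∀ x ∈ v, x ∈ X0) ∧
      (∀ n g h, g⁻¹ * h ∈ lcs G n ↔ ∀ v, v.length ≤ n → c g v = c h v) := sorry

/-- **ORD.**  Proof.  `List.Shortlex r` is a well-founded strict total order on words.  For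
`a ≠ b` let `v` be the `Shortlex`-least word with `P v.length` and `c a v ≠ c b v` (exists by
`sep`); since words before `v` are not longer than `v`, they satisfy `P` too (`down`).  Put `a < b`
iff `c a v < c b v` there; this is the displayed characterization.  Total and transitive: clear
(compare the two least words).  Left translation: `c (x a) v - c (x b) v = Σ_i c x (take i v)
(c a (drop i v) - c b (drop i v))`; for `i ≥ 1` the word `drop i v` is shorter than `v`, so the
term is `0` for `v` = the least word and for all words before it (there also the term `i = 0` is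
`0`), and the term `i = 0` is `c a v - c b v` (`c x [] = 1`).  Right translation: the same with
`take i v`, `i < |v|`. -/
theorem ORD {X : Type v} {Γ : Type u} [Group Γ] {P : ℕ → Prop} {c : Γ → List X → ℚ}
    (h : MagnusSys X P Γ c) (r : X → X → Prop) [IsWellOrder X r] :
    ∃ o : LinearOrder Γ, (∀ a b x : Γ, o.lt a b → o.lt (x * a) (x * b)) ∧
      (∀ a b x : Γ, o.lt a b → o.lt (a * x) (b * x)) ∧
      (∀ a b : Γ, o.lt a b ↔ ∃ v, P v.length ∧
        (∀ v', List.Shortlex r v' v → c a v' = c b v') ∧ c a v < c b v) := sorry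

/-- **FREEX.**  Elements of a parafree group which are independent in the abelianization freely
generate a free subgroup.  (You may use `CHI` as a hypothesis: `∀ l, ∃ χ : G → ℚ, additive ∧
χ (a j) = δ_jl`.)  Proof.  Let `χ_l` be as in CHI, `s` from `Helper28.Para.exists_good_hom hG`.
Let `w ∈ FreeGroup (Fin r)` with `w(a) = 1`, and let `Q ≥ 1`.  Define
`φ : FreeGroup X →* (NC (Fin r) ℚ)ˣ` by `φ(x) = 1 + Σ_l χ_l(s(x)) y_l` (a unit; `NC` is the ring of
noncommutative power series of `Pool/Agent/Helper7/Comm`).  `φ(g) - 1` has no constant term and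
its coefficient at the letter `y_l` is `χ_l(s(g))` (both sides are homomorphisms).  Choose `w_j`
with `(s w_j)⁻¹ a_j ∈ lcs G Q`; then `χ_l(s(w_j)) = χ_l(a_j) = δ_jl`, as `χ_l` vanishes on
`lcs G 1 ⊇ lcs G Q`.  So `μ : FreeGroup (Fin r) →* (NC (Fin r) ℚ)ˣ`, `μ(x_j) = φ(w_j)`, satisfies
`μ(x_j) - 1 - y_j` has order `≥ 2`.  Let `w' = w(w_1,…,w_r) ∈ FreeGroup X`; `s(w') ≡ w(a) = 1`
modulo `lcs G Q`, so `w' ∈ lcs F Q`, hence `μ(w) - 1 = φ(w') - 1` has order `≥ Q + 1` (the groups
`{g | φ(g) - 1 of order ≥ k+1}`, `k = 0,1,…`, form a descending central filtration).  By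
`Helper49.MagnusW.magnus_weighted` (weights `1`; see `Helper28/Para/Inject.lean`, `mem_lcs_iff`)
`w ∈ lcs (FreeGroup (Fin r)) Q`.  This holds for all `Q`, so `w = 1` (residual nilpotence of free
groups; e.g. `mem_lcs_iff` and injectivity of `mag`, or `FreeGroup` results of helper28). -/
theorem FREEX {X : Type v} {G : Type u} [Group G] (hG : IsParafreeOn X G) {r : ℕ}
    (a : Fin r → G) (h : HomIndep a) :
    Function.Injective (FreeGroup.lift a : FreeGroup (Fin r) →* G) := sorry

/-! ## Series on ordered groups -/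

/-- **HSA.**  Proof.  The first claim: `s * t` is the image of the partially well ordered set
`s ×ˢ t` under the monotone map `(a, b) ↦ a b`.  The second: if infinitely many `a ∈ s` have
`a⁻¹ x ∈ t`, then there is a strictly increasing sequence of such `a` (`s` is well ordered: an
infinite subset of a well-ordered set contains a strictly increasing sequence), and then
`a⁻¹ x` is strictly decreasing in `t`, a contradiction. -/
theorem HSA {G : Type u} [Group G] [LinearOrder G] [MulLeftStrictMono G] [MulRightStrictMono G]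
    {s t : Set G} (hs : s.IsPWO) (ht : t.IsPWO) :
    (s * t).IsPWO ∧ ∀ x : G, {a | a ∈ s ∧ a⁻¹ * x ∈ t}.Finite := sorry

/-- **HSB.**  (You may take the statement of HSA for `G` as hypothesis.)  Proof.  Both sides are
at `x` the sum of `f a * g (a⁻¹ c) * h (c⁻¹ x)` over all `(a, c)`; the set of pairs `(a, c)` with
nonzero term is finite: `c` is in the product set `supp f * supp g` and `c⁻¹ x ∈ supp h`
(finitely many `c` by HSA), and for each `c` finitely many `a` by HSA. -/
theorem HSB {G : Type u} [Group G] [LinearOrder G] [MulLeftStrictMono G] [MulRightStrictMono G]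
    {f g h : G → ℚ} (hf : (Function.support f).IsPWO) (hg : (Function.support g).IsPWO)
    (hh : (Function.support h).IsPWO) : conv (conv f g) h = conv f (conv g h) := sorry

/-- **NEU.**  (B. H. Neumann's lemma.)  Proof.  By Higman's lemma
(`Set.PartiallyWellOrderedOn.partiallyWellOrderedOn_sublistForall₂`) the set of lists with
entries in `S` is partially well ordered by `List.SublistForall₂ (· ≤ ·)`.  If
`List.SublistForall₂ (· ≤ ·) l l'` and the entries are `> 1`, then `l.prod ≤ l'.prod`, with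
equality only if `l = l'` (omitting entries and decreasing entries both make the product strictly
smaller).  First claim: image of a partially well ordered set under a monotone map.  Second:
if infinitely many lists have product `x`, take an injective sequence of them; two of its members
`l_i`, `l_j` (`i < j`) are comparable and different, so their products differ. -/
theorem NEU {G : Type u} [Group G] [LinearOrder G] [MulLeftStrictMono G] [MulRightStrictMono G]
    {S : Set G} (hS : S.IsPWO) (h1 : ∀ x ∈ S, 1 < x) :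
    {x : G | ∃ l : List G, (∀ z ∈ l, z ∈ S) ∧ l.prod = x}.IsPWO ∧
      ∀ x : G, {l : List G | (∀ z ∈ l, z ∈ S) ∧ l.prod = x}.Finite := sorry

/-- **GEO.**  (You may take the statements of NEU and HSA for `G` as hypotheses.)  Proof.  Let
`z(x) = Σ_l (l.map y).prod` over the finitely many (NEU) lists `l` with entries in `supp y` and
`l.prod = x`, i.e. `z x = ∑ᶠ l : List G, if l.prod = x then (l.map y).prod else 0`.  Splitting off
the first entry: `z(x) = (if x = 1 then 1 else 0) + Σ_a y(a) z(a⁻¹ x)`, i.e.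
`z = mono 1 1 + conv y z`; splitting off the last entry: `z = mono 1 1 + conv z y`.  Since `conv`
is additive in each argument when the supports are partially well ordered
(`finsum_add_distrib` with HSA; `supp z` is partially well ordered by NEU) and
`conv (mono 1 1) z = z = conv z (mono 1 1)`, the claims follow. -/
theorem GEO {G : Type u} [Group G] [LinearOrder G] [MulLeftStrictMono G] [MulRightStrictMono G]
    {y : G → ℚ} (hy : (Function.support y).IsPWO) (h1 : ∀ x, y x ≠ 0 → 1 < x) :
    ∃ z : G → ℚ, (∀ x, z x ≠ 0 → ∃ l : List G, (∀ t ∈ l, y t ≠ 0) ∧ l.prod = x) ∧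
      conv (fun x => mono 1 1 x - y x) z = mono 1 1 ∧
      conv z (fun x => mono 1 1 x - y x) = mono 1 1 := sorry

/-- **TIN.**  (You may take the statements of HSA, HSB, NEU, GEO for all ordered groups as
hypotheses.)  Proof.  Let `g₀ = min supp f`, `q = f(g₀)`.  Then
`f' (x) := q⁻¹ f(g₀ x)` (i.e. `f' = mono g₀⁻¹ q⁻¹ * f`) is `mono 1 1 - y` where
`supp y ⊆ g₀⁻¹ supp f`, `y(x) ≠ 0 → 1 < x`.  Let `z` be as in GEO and put
`g = z * mono g₀⁻¹ q⁻¹`, i.e. `g(x) = q⁻¹ z(x g₀)`.  Then `conv f g = mono 1 1`, `conv g f =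
mono 1 1` (associativity, or direct: `conv f g x = conv f' z` evaluated at `g₀⁻¹ x g₀`, etc.).
Supports: `supp g ⊆ (products of elements of supp y) · g₀⁻¹`, so it is partially well ordered
(NEU, translation), and contained in each subgroup `B ⊇ supp f`.  Tameness: let `f` be tame for
`p i`, `i ≥ i₀`.  Then so is `y` (`supp y ⊆ g₀⁻¹ supp f`, translation by a fixed element; the
image is `p(g₀)⁻¹ p(supp f)`, partially well ordered).  The set `{x | y x ≠ 0, p i₀ x = 1}` is
finite and its elements are `≠ 1`, so there is `i₁ ≥ i₀` such that for `i ≥ i₁` no element `x` of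
`supp y` has `p i x = 1`: here use `hker`: an `x` with `p i x = 1`, `i ≥ i₀`, has `p i₀ x = 1`,
and then `hsep`.  So for `i ≥ i₁`: `p i` maps `supp y` into the elements `> 1` (monotone, `x > 1`,
`p i x ≠ 1`), and by NEU for `N i` and `S = p i (supp y)`: the set of products of elements of
`S` is partially well ordered, so the image of `supp z` is; and for `t ∈ N i` only finitely many
lists over `S` have product `t`, each entry of which has finitely many preimages in `supp y`; so
there are finitely many lists over `supp y` whose product is mapped to `t`, hence finitely many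
`x` with `z x ≠ 0`, `p i x = t`.  So `z`, and its translate `g`, are tame for `p i`, `i ≥ i₁`. -/
theorem TIN {G : Type u} [Group G] [LinearOrder G] [MulLeftStrictMono G] [MulRightStrictMono G]
    {f : G → ℚ} (hf : (Function.support f).IsPWO) (hne : f ≠ 0)
    {N : ℕ → Type u} [∀ i, Group (N i)] [∀ i, LinearOrder (N i)]
    [∀ i, MulLeftStrictMono (N i)] [∀ i, MulRightStrictMono (N i)]
    (p : ∀ i, G →* N i) (hp : ∀ i, Monotone (p i))
    (hker : ∀ i j, i ≤ j → ∀ x, p j x = 1 → p i x = 1)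
    (hsep : ∀ x, x ≠ 1 → ∃ i, p i x ≠ 1)
    (hft : ∃ i₀, ∀ i, i₀ ≤ i → Tame (p i) f) :
    ∃ g : G → ℚ, (Function.support g).IsPWO ∧ conv f g = mono 1 1 ∧ conv g f = mono 1 1 ∧
      (∀ B : Subgroup G, (∀ x, f x ≠ 0 → x ∈ B) → ∀ x, g x ≠ 0 → x ∈ B) ∧
      ∃ i₁, ∀ i, i₁ ≤ i → Tame (p i) g := sorry

/-- **TAM.**  (You may take the statement of HSA for all ordered groups as a hypothesis.)
Proof.  If `conv f g x ≠ 0` then `x = a b` with `f a ≠ 0`, `g b ≠ 0`.  So `p (supp (f*g))` is
contained in the product of two partially well ordered sets.  For `t ∈ N` there are finitely many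
pairs `(α, β)` with `α ∈ p(supp f)`, `β ∈ p(supp g)`, `α β = t` (HSA), and for each of them finitely
many `a ∈ supp f`, `b ∈ supp g` with `p a = α`, `p b = β`; so finitely many pairs `(a, b)` in
`supp f × supp g` with `p(a b) = t`.  The value at `t` of both sides of the second claim is the sum
of `f a * g b` over these pairs. -/
theorem TAM {G : Type u} [Group G] [LinearOrder G] [MulLeftStrictMono G] [MulRightStrictMono G]
    {N : Type v} [Group N] [LinearOrder N] [MulLeftStrictMono N] [MulRightStrictMono N]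
    (p : G →* N) (hp : Monotone p) {f g : G → ℚ} (hf : (Function.support f).IsPWO)
    (hg : (Function.support g).IsPWO) (hft : Tame p f) (hgt : Tame p g) :
    Tame p (conv f g) ∧ push p (conv f g) = conv (push p f) (push p g) := sorry

/-! ## Trees -/

/-- **TPROJ.**  Proof.  Let `p ∈ S` with `T.dist o p` minimal and `q ∈ S`.  The path `P` from
`p` to `q` consists of points of `S` (convexity: its vertices `c` satisfy
`dist p c + dist c q = dist p q`; in a tree the unique path is a shortest walk).  The path `P'`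
from `o` to `p` meets `S` only in `p` (other vertices of it are closer to `o`).  So the
concatenation of `P'` and `P` is a path, hence the unique path from `o` to `q`, of length
`dist o q`. -/
theorem TPROJ {V : Type w} {T : SimpleGraph V} (hT : T.IsTree) : TreeProj T := sorry

/-- **TBTW.**  Proof.  Let `P` be the path from `o` to `q` (unique path, length `dist o q`).  A
vertex `p` with `dist o q = dist o p + dist p q` is the vertex number `dist o p` on `P`: the
concatenation of shortest walks `o → p → q` has length `dist o q`, so it is a path and equals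
`P`.  So `dist p₁ p₂ ≤ dist o p₂ - dist o p₁` (subwalk of `P`), and
`dist p₁ q ≤ dist p₁ p₂ + dist p₂ q ≤ dist o p₂ - dist o p₁ + dist o q - dist o p₂ = dist p₁ q`. -/
theorem TBTW {V : Type w} {T : SimpleGraph V} (hT : T.IsTree) : TreeBtw T := sorry

/-- **THULL.**  (`TreeProj` and `TreeBtw` may be used as hypotheses, packets TPROJ, TBTW.)  Proof.
If `U` is empty take `S = ∅`.  Otherwise fix `o ∈ U` and let `S` be the union over `u ∈ U` of the
intervals `[o,u] = {c | dist o c + dist c u = dist o u}`; each is finite (by TBTW two points of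
`[o,u]` with the same distance to `o` have distance `0`) and convex (if `a, b ∈ [o,u]`,
`dist o a ≤ dist o b` then `b ∈ [a,u]`, and for `c ∈ [a,b]`:
`dist o c + dist c u ≤ dist o a + dist a c + dist c b + dist b u = dist o u`).  `S` is convex: let
`a ∈ [o,u]`, `b ∈ [o,u']`, `c ∈ [a,b]`.  `K = [o,a]` is convex; let `p` be the projection of `b`
to `K` (TPROJ): `p ∈ [b,a]`, `p ∈ [b,o]`.  By TBTW (for the pair `b`, `a` and the two points `p`,
`c`) either `c ∈ [p,a] ⊆ K` or `c ∈ [b,p]`.  In the first case `c ∈ [o,a] ⊆ [o,u]`.  In the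
second, `dist o b = dist o p + dist p c + dist c b ≥ dist o c + dist c b`, so
`c ∈ [o,b] ⊆ [o,u']`. -/
theorem THULL {V : Type w} {T : SimpleGraph V} (hT : T.IsTree) : TreeHull T := sorry

/-- **CHAIN.**  (`TreeProj T`, `TreeBtw T` may be used as hypotheses.)  Proof.  `H` acts by
automorphisms, so `T.dist (g • v) (g • w) = T.dist v w`.  Note `σ 1 = σ 1 * σ 1`, so `σ 1 = 1`.
Induction on the length `k` of `L = [s₁,…,s_k]`.  `k = 0`, `k = 1` are clear.  Let `k ≥ 2`,
`g_i = s₁ ⋯ s_i` (`g₀ = 1`), `S_i = g_i S` (convex, nonempty).  Choose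
`o ∈ S ∩ g_k S` (from `y ∈ S`, `L.prod • y ∈ S`: `o = L.prod • y`).  For each `i` let `p_i ∈ S_i`
be the projection of `o` (TreeProj), `d_i = dist o p_i`; `d_0 = d_k = 0`.  Choose `0 < i < k`
with `d_i` maximal among `0 < i < k` (so among all `i`).  `S_{i-1} ∩ S_i ≠ ∅` since `s_i ∈ Sig`:
there is `y' ∈ S` with `s_i y' ∈ S`, so `g_i y' = g_{i-1} (s_i y')`.  Let `x` be in the
intersection.  Then `p_{i-1}`, `p_i` are between `o` and `x` and `dist o p_{i-1} ≤ dist o p_i`,
so by `TreeBtw` `p_i` is between `p_{i-1}` and `x`, both in `S_{i-1}`; hence `p_i ∈ S_{i-1}`.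
Similarly `p_i ∈ S_{i+1}`.  With `y = g_{i+1}⁻¹ p_i ∈ S` we have `s_{i+1} y = g_i⁻¹ p_i ∈ S` and
`s_i s_{i+1} y = g_{i-1}⁻¹ p_i ∈ S`.  So `s_i s_{i+1} ∈ Sig`, `σ(s_i s_{i+1}) = σ(s_i) σ(s_{i+1})`
and the induction hypothesis applies to the list in which `s_i`, `s_{i+1}` are replaced by their
product (same product, same `σ`-product).  (In Lean: `L = L₁ ++ [s, t] ++ L₂`.) -/
theorem CHAIN {V : Type w} {T : SimpleGraph V} (hT : T.IsTree) {H : Type u} [Group H]
    [MulAction H V] (hact : ∀ (g : H) (v w : V), T.Adj v w → T.Adj (g • v) (g • w))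
    {Q : Type v} [Group Q] : ChainLemma T H Q := sorry

/-- **TVF.**  Vertex stabilizers of a finitely generated group acting on a tree with finitely
generated edge stabilizers are finitely generated.  (`TreeHull`, `ChainLemma` may be used as
hypotheses: packets THULL, CHAIN.)
Proof.  Let `H` be generated by the finite set `E`; let `S` be a finite convex set containing
`v` and `h • v`, `h ∈ E`.  On `S` consider the relation (same `H`-orbit); for each
`x ∈ S` choose a representative `x̂ ∈ S` of its class (depending only on the class) and `τ_x ∈ H`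
with `τ_x x̂ = x` (one can choose `τ_{x̂} = 1` but this is not needed).  For `x, y ∈ S` in the
same class and `s ∈ H` with `s x = y` put `loc_{x,y}(s) = τ_y⁻¹ s τ_x ∈ H_{x̂}` (stabilizer).  For
each representative `r` let `P_r ≤ H_r` be the subgroup generated by: (i) `τ_x⁻¹ (H_x ∩ H_y) τ_x`
for all adjacent `x, y ∈ S` with `x̂ = r` (finitely many f.g. groups); (ii) for all
`(x, x', y, y') ∈ S⁴` with `x ~ x'` adjacent and `x̂' = r` for which there is `h ∈ H` with
`h x = y`, `h x' = y'`: one such `h₀ = h₀(x,x',y,y')` is chosen and `τ_{y'}⁻¹ h₀ τ_{x'}` is taken;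
(iii) for `h ∈ E` and `v̂ = r`: `loc_{v,hv}(h)`.  So `P_r` is f.g.
(*) Let `s ∈ H`, `x ~ x'` adjacent in `S`, `s x, s x' ∈ S`; then `loc_{x',sx'}(s) ∈ P_{x̂'}`:
with `h₀` as in (ii) for `(x,x',sx,sx')` we have `c = h₀⁻¹ s ∈ H_x ∩ H_{x'}` and
`loc(s) = (τ_{y'}⁻¹ h₀ τ_{x'}) (τ_{x'}⁻¹ c τ_{x'})`.
Let `Sig` be the set of `s ∈ H` such that there is `x ∈ S` with `s x ∈ S` and
`loc_{x,sx}(s) ∈ P_{x̂}`.
(**) If `s ∈ Sig` and `x' ∈ S`, `s x' ∈ S` then `loc_{x',sx'}(s) ∈ P_{x̂'}`: if `x' = x` clear;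
otherwise the path from `x` to `x'` is in `S` and its image is the path from `sx` to `sx'`, in
`S`; let `x''` be the last vertex before `x'` and use (*) for the edge `(x'', x')`.
So `Sig` satisfies the hypotheses of the chain lemma (`Q` trivial, `σ = 1`): `1 ∈ Sig`
(`loc_{x,x}(1) = 1`), and if `s, t ∈ Sig`, `y, ty, sty ∈ S` then `loc(t)`, `loc(s)` are in
`P_{ŷ}` by (**) and `loc_{y,sty}(st) = loc_{ty,sty}(s) loc_{y,ty}(t)`.  `Sig` is closed under
inverses (`loc_{sx,x}(s⁻¹) = loc_{x,sx}(s)⁻¹`) and contains `E` by (iii).  So each `g ∈ H` is a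
product of elements of `Sig`; if `g ∈ H_v` then `g ∈ Sig` by the chain lemma and by (**)
`τ_v⁻¹ g τ_v ∈ P_{v̂}`.  Conversely `τ_v P_{v̂} τ_v⁻¹ ≤ H_v`.  So `H_v = τ_v P_{v̂} τ_v⁻¹` is f.g. -/
theorem TVF {V : Type w} {T : SimpleGraph V} (hT : T.IsTree) (hHull : TreeHull T)
    {H : Type u} [Group H] [MulAction H V]
    (hact : ∀ (g : H) (v w : V), T.Adj v w → T.Adj (g • v) (g • w))
    (hch : ChainLemma T H PUnit.{1}) (hfg : Group.FG H)
    (hedge : ∀ v w : V, T.Adj v w →
      (MulAction.stabilizer H v ⊓ MulAction.stabilizer H w).FG) :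
    ∀ v : V, (MulAction.stabilizer H v).FG := sorry

/-- **FPC.**  Proof.  Each `K i` is isomorphic to a `PresentedGroup` on finitely many generators
(`Group.IsFinitelyPresented.exists_mulEquiv_presentedGroup`, in `Type`), and `H` is a quotient of
`FreeGroup (Fin n)`.  Let `Q` be the free product of all of them (induction on `k` with
`Monoid.Coprod`, whose finite presentability is in Mathlib), `q` the map induced by the
inclusions. -/
theorem FPC {H : Type u} [Group H] (hH : Group.FG H) {k : ℕ} (K : Fin k → Subgroup H)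
    (hK : ∀ i, Group.IsFinitelyPresented (K i)) :
    ∃ (Q : Type) (_ : Group Q) (q : Q →* H) (j : ∀ i, K i →* Q), Group.IsFinitelyPresented Q ∧
      Function.Surjective q ∧ ∀ i (x : K i), q (j i x) = x := sorry

/-- **TFP.**  (You may take as hypotheses `TreeHull T`, `∀ (Q : Type) [Group Q], ChainLemma T H Q`
and the statement of FPC for `H`.)
Proof.  Let `E` (finite generating set of `H`), `v`, `S` (finite, convex, containing `v` and `e v`
for `e ∈ E`), `x̂`, `τ_x`, `loc` be as in the proof of TVF.  By FPC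
there are a f.p. group `Q₀`, a surjection `q₀ : Q₀ → H` and lifts `j_r : H_r → Q₀`,
`q₀ ∘ j_r = id`, for the finitely many representatives `r`.  `Q₀` is generated by a finite set `Z`.
Choose `τ̃_x ∈ Q₀` with `q₀(τ̃_x) = τ_x` (`x ∈ S`).  For `x, y ∈ S` in the same orbit and
`s x = y` put `σ_{xy}(s) = τ̃_y j_{x̂}(loc_{x,y}(s)) τ̃_x⁻¹ ∈ Q₀`; then `q₀(σ_{xy}(s)) = s`.
Let `Q` be the quotient of `Q₀` by the following finitely many elements of `ker q₀`:
(a) for adjacent `x, x' ∈ S` and `c` in a finite generating set of `H_x ∩ H_{x'}`: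
`σ_{xx}(c) σ_{x'x'}(c)⁻¹`;
(b) for `(x,x',y,y') ∈ S⁴`, `x ~ x'`, such that some `h` has `h x = y`, `h x' = y'`, with a chosen
such `h₀`: `σ_{xy}(h₀) σ_{x'y'}(h₀)⁻¹`;
(c) for `z ∈ Z`: write `q₀(z)` as a product `e₁^{±1} ⋯ e_k^{±1}` of elements of `E`, and take
`z⁻¹ σ_{y₁,x₁}(e₁^{±1}) ⋯ σ_{y_k,x_k}(e_k^{±1})` where for `e ∈ E`: `σ(e) = σ_{v,ev}(e)` and
`σ(e⁻¹) = σ_{ev,v}(e⁻¹)`.
`Q` is finitely presented (`Group.IsFinitelyPresented.quotient`), and `q : Q → H` is induced by
`q₀`.  In `Q`: for adjacent `x, x' ∈ S` and all `c ∈ H_x ∩ H_{x'}`: `σ_{xx}(c) = σ_{x'x'}(c)`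
(both are homomorphisms in `c`), and then for all `s` with `x, x', sx, sx' ∈ S`:
`s = h₀ c`, `σ_{x,sx}(s) = σ_{x,sx}(h₀) σ_{xx}(c) = σ_{x',sx'}(h₀) σ_{x'x'}(c) = σ_{x',sx'}(s)`.
By induction along the path from `x` to `x'` (convexity of `S`), `σ_{x,sx}(s) = σ_{x',sx'}(s)` for
all `x, x' ∈ S` with `sx, sx' ∈ S`.  So `σ(s)` is well defined for
`s ∈ Sig = {s | ∃ x ∈ S, s x ∈ S}` (choose any `x`), and `σ(st) = σ(s) σ(t)` if
`y, ty, sty ∈ S`, as `σ_{y,sty}(st) = σ_{ty,sty}(s) σ_{y,ty}(t)`.  By (c), `Q` is generated by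
elements `σ(s)`, `s ∈ Sig` (and `σ(s)⁻¹ = σ(s⁻¹)`), so each element of `Q` is a product
`σ(s₁) ⋯ σ(s_k)`, `s_i ∈ Sig`; if its image `s₁ ⋯ s_k` in `H` is `1`, the chain lemma gives
`σ(s₁) ⋯ σ(s_k) = σ(1) = 1`.  So `q` is an isomorphism and `H` is finitely presented. -/
theorem TFP {V : Type w} {T : SimpleGraph V} (hT : T.IsTree) (hHull : TreeHull T)
    {H : Type u} [Group H] [MulAction H V]
    (hact : ∀ (g : H) (v w : V), T.Adj v w → T.Adj (g • v) (g • w))
    (hch : ∀ (Q : Type) [Group Q], ChainLemma T H Q)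
    (hfpc : ∀ {k : ℕ} (K : Fin k → Subgroup H), (∀ i, Group.IsFinitelyPresented (K i)) →
      ∃ (Q : Type) (_ : Group Q) (q : Q →* H) (j : ∀ i, K i →* Q), Group.IsFinitelyPresented Q ∧
      Function.Surjective q ∧ ∀ i (x : K i), q (j i x) = x)
    (hfg : Group.FG H)
    (hedge : ∀ v w : V, T.Adj v w →
      (MulAction.stabilizer H v ⊓ MulAction.stabilizer H w).FG)
    (hv : ∀ v : V, Group.IsFinitelyPresented (MulAction.stabilizer H v)) :
    Group.IsFinitelyPresented H := sorry

/-- **HOW.**  (Howson's theorem.)  Proof.  Lengths are `FreeGroup.norm`.  (1) For a f.g.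
subgroup `P` there is `K` such that for each `x ∈ P` and each prefix `z` of the reduced word of `x`
there is `p ∈ P` with `|z⁻¹ p| ≤ K`: write `x` as a product of generators (and inverses)
`p₁ ⋯ p_k`; the concatenation of their words reduces to the reduced word of `x`; every prefix of
the reduced word equals, as a group element, some prefix of the unreduced word (if `L` reduces to
`L'` in one step, each prefix of `L'` equals in the group a prefix of `L`), i.e.
`z = p₁ ⋯ p_j t` with `t` a prefix of `p_{j+1}`, so `|z⁻¹ p₁ ⋯ p_j| ≤ max |p_i|`.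
(2) Let `K` serve for `P` and `Q`.  Elements of `P`, `Q` and all their prefixes involve only the
finitely many letters of the generators (or choose `X0` finite such that `P`, `Q` lie in the
subgroup generated by `X0`), so the set `B` of group elements of length `≤ K` in these letters is
finite; `M = |B|²`.  Let `x ∈ P ∩ Q` have length `> M`.  For the `M + 1` prefixes `z` of length
`0..M` choose `p ∈ P`, `q ∈ Q` with `k = p⁻¹ z`, `k' = q⁻¹ z` in `B` (inverses of elements of
length `≤ K`); two of them, `z = p k = q k'` (shorter) and `z' = p' k = q' k'`, have the same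
`(k, k')`.  Then `z z'⁻¹ = p p'⁻¹ = q q'⁻¹ ∈ P ∩ Q` and `x' = z z'⁻¹ x ∈ P ∩ Q` has length
`≤ |z| + |z'⁻¹ x| < |x|`, and `z' z⁻¹` has length `≤ 2M`.  So `x = (z' z⁻¹) x'`, and by induction
on `|x|`, `P ∩ Q` is generated by its elements of length `≤ 2M`, finitely many. -/
theorem HOW {X : Type v} (P Q : Subgroup (FreeGroup X)) (hP : P.FG) (hQ : Q.FG) :
    (P ⊓ Q).FG := sorry

end Pool.Agent.Helper11.PC
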