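import Pool.Agent.Helper11.PC.Defs

/-! # Basic facts on convolution -/

namespace Pool.Agent.Helper11.PC

universe u v w

open MonoidAlgebra
open scoped Pointwise

section group

variable {G : Type u} [Group G]

omit [Group G] in
theorem mono_apply_self (g : G) (q : ℚ) : mono g q g = q := by simp [mono]

omit [Group G] in
theorem mono_apply_ne {g x : G} (q : ℚ) (h : x ≠ g) : mono g q x = 0 := by simp [mono, h]

omit [Group G] in
theorem mono_ne_zero {g x : G} {q : ℚ} (h : mono g q x ≠ 0) : x = g := by
  by_contra hx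
  exact h (mono_apply_ne q hx)

theorem conv_mono_left (g : G) (q : ℚ) (f : G → ℚ) : conv (mono g q) f = fun x => q * f (g⁻¹ * x) := by
  funext x
  unfold conv
  rw [finsum_eq_single _ g]
  · rw [mono_apply_self]
  · intro a ha
    rw [mono_apply_ne _ ha, zero_mul]

theorem conv_mono_right (g : G) (q : ℚ) (f : G → ℚ) :
    conv f (mono g q) = fun x => f (x * g⁻¹) * q := by
  funext x
  unfold conv
  rw [finsum_eq_single _ (x * g⁻¹)]
  · congr 1
    have : (x * g⁻¹)⁻¹ * x = g := by group
    rw [this, mono_apply_self]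
  · intro a ha
    rw [mono_apply_ne, mul_zero]
    intro h
    apply ha
    rw [← h]; group

theorem one_conv (f : G → ℚ) : conv (mono 1 1) f = f := by
  rw [conv_mono_left]; funext x; simp

theorem conv_one (f : G → ℚ) : conv f (mono 1 1) = f := by
  rw [conv_mono_right]; funext x; simp

theorem zero_conv (f : G → ℚ) : conv 0 f = 0 := by
  funext x; unfold conv; simp

theorem conv_zero (f : G → ℚ) : conv f 0 = 0 := by
  funext x; unfold conv; simp

theorem conv_ne_zero {f g : G → ℚ} {x : G} (h : conv f g x ≠ 0) :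
    ∃ a, f a ≠ 0 ∧ g (a⁻¹ * x) ≠ 0 := by
  by_contra hcon
  push Not at hcon
  apply h
  unfold conv
  rw [finsum_eq_zero_of_forall_eq_zero]
  intro a
  by_cases ha : f a = 0
  · rw [ha, zero_mul]
  · rw [hcon a ha, mul_zero]

theorem rmul_single (f : G → ℚ) (g : G) (q : ℚ) :
    rmul f (single g q) = fun x => f (x * g⁻¹) * q := by
  funext x
  unfold rmul
  rw [coeff_single, Finsupp.sum_single_index]
  rw [mul_zero]

theorem rmul_add (f : G → ℚ) (z z' : MonoidAlgebra ℚ G) :
    rmul f (z + z') = rmul f z + rmul f z' := by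
  funext x
  unfold rmul
  rw [coeff_add, Finsupp.sum_add_index']
  · rfl
  · intro a; rw [mul_zero]
  · intro a b c; rw [mul_add]

theorem rmul_zero (f : G → ℚ) : rmul f 0 = 0 := by
  funext x; simp [rmul]

/-- Right multiplication by an element of the group algebra is convolution. -/
theorem rmul_eq_conv (f : G → ℚ) (z : MonoidAlgebra ℚ G) : rmul f z = conv f z.coeff := by
  funext x
  unfold rmul conv
  rw [Finsupp.sum]
  rw [finsum_eq_sum_of_support_subset (s := z.coeff.support.map
    ⟨fun b => x * b⁻¹, fun a b h => by simpa using h⟩)]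
  · rw [Finset.sum_map]
    apply Finset.sum_congr rfl
    intro b _
    change _ = f (x * b⁻¹) * z.coeff ((x * b⁻¹)⁻¹ * x)
    congr 2
    group
  · intro a ha
    simp only [Function.mem_support] at ha
    have h1 : z.coeff (a⁻¹ * x) ≠ 0 := right_ne_zero_of_mul ha
    simp only [Finset.coe_map, Set.mem_image, Finset.mem_coe, Finsupp.mem_support_iff]
    refine ⟨a⁻¹ * x, h1, ?_⟩
    change x * (a⁻¹ * x)⁻¹ = a
    group

theorem rmul_coeff (z z' : MonoidAlgebra ℚ G) : rmul z.coeff z' = (z * z').coeff := by
  induction z' using MonoidAlgebra.induction_linear with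
  | zero => rw [rmul_zero]; simp
  | add a b ha hb => rw [rmul_add, ha, hb, mul_add, coeff_add]; rfl
  | single g q =>
    rw [rmul_single]
    funext x
    rw [coeff_mul_single_eq_coeff_mul (m₂ := x * g⁻¹)]
    intro m' _
    exact ⟨fun h => by rw [← h]; group, fun h => by rw [h]; group⟩

theorem conv_coeff (z z' : MonoidAlgebra ℚ G) : conv z.coeff z'.coeff = (z * z').coeff := by
  rw [← rmul_eq_conv, rmul_coeff]

end group

end Pool.Agent.Helper11.PC
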