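import Pool.Agent.Helper11.PC.Defs
import Pool.Agent.Helper86.PC.DERX
import Pool.Agent.Helper87.PC.DERF
import Pool.Agent.Helper19.PC.FDER
import Pool.Agent.Helper8.PC.CHI
import Pool.Agent.Helper2.PC.SEP

/-! # Relations over the nilpotent quotients -/

set_option linter.unusedSectionVars false

namespace Pool.Agent.Helper11.PC

universe u v w

open MonoidAlgebra Pool.Agent.Helper28.Para

section

variable {X : Type v} {G : Type u} [Group G]

/-- The map of group algebras induced by `G → G/γ_{k+1}(G)`. -/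
noncomputable abbrev mk' (G : Type u) [Group G] (k : ℕ) :
    MonoidAlgebra ℚ G →+* MonoidAlgebra ℚ (G ⧸ lcs G k) :=
  MonoidAlgebra.mapDomainRingHom ℚ (QuotientGroup.mk' (lcs G k))

theorem fox_ring {R : Type u} [Ring R] (φ : MonoidAlgebra ℚ G →+* R) (δ : G → R)
    (hδ : ∀ g h, δ (g * h) = δ g + φ (gl g) * δ h) {n : ℕ} (b : Fin n → G) (c : G)
    (W : Fin n → MonoidAlgebra ℚ G) (hW : IsFox b c W) : δ c = ∑ j, φ (W j) * δ (b j) := by
  let inst : Module (MonoidAlgebra ℚ G) R := Module.compHom R φ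
  exact hW R δ hδ

/-- Derivations into `ℚN/ω^q` and Fox coefficients. -/
theorem fox_apply {m n : ℕ} (b : Fin n → G) (c : Fin m → G) (W : Fin m → Fin n → MonoidAlgebra ℚ G)
    (hW : ∀ i, IsFox b (c i) (W i)) (k q : ℕ)
    (δ : G → (MonoidAlgebra ℚ (G ⧸ lcs G k)) ⧸ (aug (G ⧸ lcs G k)) ^ q)
    (hδ : ∀ g h, δ (g * h) =
        δ g + Ideal.Quotient.mk _ (gl (QuotientGroup.mk g : G ⧸ lcs G k)) * δ h)
    (u : Fin m → MonoidAlgebra ℚ (G ⧸ lcs G k)) :
    ∑ i, Ideal.Quotient.mk _ (u i) * δ (c i) =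
      ∑ j, Ideal.Quotient.mk _ (∑ i, u i * mk' G k (W i j)) * δ (b j) := by
  let φ : MonoidAlgebra ℚ G →+* (MonoidAlgebra ℚ (G ⧸ lcs G k)) ⧸ (aug (G ⧸ lcs G k)) ^ q :=
    (Ideal.Quotient.mk _).comp (mk' G k)
  have h1 : ∀ i, δ (c i) = ∑ j, φ (W i j) * δ (b j) := by
    intro i
    refine fox_ring φ δ (fun g h => ?_) b (c i) (W i) (hW i)
    rw [hδ]
    congr 2
    change _ = Ideal.Quotient.mk _ (mk' G k (gl g))
    rw [MonoidAlgebra.mapDomainRingHom_apply, MonoidAlgebra.mapDomain_single]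
    rfl
  calc ∑ i, Ideal.Quotient.mk _ (u i) * δ (c i)
      = ∑ i, ∑ j, Ideal.Quotient.mk _ (u i) * (φ (W i j) * δ (b j)) := by
        apply Finset.sum_congr rfl
        intro i _
        rw [h1, Finset.mul_sum]
    _ = ∑ j, ∑ i, Ideal.Quotient.mk _ (u i) * (φ (W i j) * δ (b j)) := Finset.sum_comm
    _ = _ := by
        apply Finset.sum_congr rfl
        intro j _
        rw [map_sum, Finset.sum_mul]
        apply Finset.sum_congr rfl
        intro i _
        rw [← mul_assoc, map_mul]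
        rfl

theorem nil_rel (hG : IsParafreeOn X G) {r m n : ℕ} (a : Fin r → G) (hind : HomIndep a)
    (b : Fin n → G) (c : Fin m → G) (W : Fin m → Fin n → MonoidAlgebra ℚ G)
    (hW : ∀ i, IsFox b (c i) (W i)) (α : Fin m → Fin r → MonoidAlgebra ℚ G)
    (hα : ∀ i, IsFox a (c i) (α i)) (k : ℕ)
    (hsep : ∀ z : MonoidAlgebra ℚ (G ⧸ lcs G k), (∀ q : ℕ, z ∈ (aug (G ⧸ lcs G k)) ^ q) → z = 0)
    (u : Fin m → MonoidAlgebra ℚ (G ⧸ lcs G k))
    (hu : ∀ j, ∑ l, u l * mk' G k (W l j) = 0) :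
    ∀ j, ∑ l, u l * mk' G k (α l j) = 0 := by
  classical
  let g : Fin r → MonoidAlgebra ℚ (G ⧸ lcs G k) := fun j => ∑ l, u l * mk' G k (α l j)
  have main : ∀ q : ℕ, ∀ j, g j ∈ (aug (G ⧸ lcs G k)) ^ q := by
    intro q
    have hstep : ∀ l : Fin r, ∃ y : Fin r → MonoidAlgebra ℚ (G ⧸ lcs G k),
        (∑ j, g j * y j ∈ (aug (G ⧸ lcs G k)) ^ q) ∧ ∀ j, y j - (if j = l then 1 else 0) ∈ aug (G ⧸ lcs G k) := by
      intro l
      obtain ⟨χ, hχ1, hχ2⟩ := Helper8.PC.chi a hind l
      obtain ⟨δ, hδ, hy⟩ := Helper86.PC.derx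
        (fun R _ hd J _ q' hJ θ hθ lam => Helper87.PC.derf hd J q' hJ θ hθ lam) hG χ hχ1 k q
      choose y hy1 hy2 using fun j => hy (a j)
      refine ⟨y, ?_, ?_⟩
      · have h1 := fox_apply b c W hW k q δ hδ u
        have h2 := fox_apply a c α hα k q δ hδ u
        rw [h1] at h2
        have h3 : ∀ j, ∑ i, u i * mk' G k (W i j) = 0 := hu
        simp only [h3, map_zero, zero_mul, Finset.sum_const_zero] at h2
        rw [← Ideal.Quotient.eq_zero_iff_mem, map_sum]
        rw [h2]
        apply Finset.sum_congr rfl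
        intro j _
        rw [map_mul, hy1]
      · intro j
        have h4 : augHom (G ⧸ lcs G k) (y j) = if j = l then 1 else 0 := by rw [hy2, hχ2]
        change augHom (G ⧸ lcs G k) (y j - (if j = l then 1 else 0)) = 0
        rw [map_sub, h4]
        split_ifs <;> simp
    have hind : ∀ i, i ≤ q → ∀ j, g j ∈ (aug (G ⧸ lcs G k)) ^ i := by
      intro i
      induction i with
      | zero =>
        intro _ j
        rw [Submodule.pow_zero, Ideal.one_eq_top]
        trivial
      | succ i ih =>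
        intro hi l
        obtain ⟨y, hy1, hy2⟩ := hstep l
        have h5 : g l = ∑ j, g j * y j - ∑ j, g j * (y j - (if j = l then 1 else 0)) := by
          rw [← Finset.sum_sub_distrib]
          rw [Finset.sum_congr rfl (g := fun j => g j * (if j = l then 1 else 0))]
          · simp
          · intro j _
            rw [← mul_sub]
            congr 1
            abel
        rw [h5]
        apply Submodule.sub_mem
        · exact Ideal.pow_le_pow_right hi hy1
        · apply Submodule.sum_mem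
          intro j _
          have h6 := Ideal.mul_mem_mul (ih (by omega) j) (hy2 j)
          rwa [← Submodule.pow_succ] at h6
    exact hind q le_rfl
  intro j
  exact hsep (g j) fun q => main q j

end

end Pool.Agent.Helper11.PC
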