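import Pool.Agent.Helper11.PC.Defs
import Pool.Agent.Helper34.PC.MAGG
import Pool.Agent.Helper67.PC.MAGF
import Pool.Agent.Helper5.PC.ORD

/-! # Magnus systems and orders on a parafree group and its nilpotent quotients -/

set_option linter.unusedSectionVars false

namespace Pool.Agent.Helper11.PC

universe u v w

open MonoidAlgebra Pool.Agent.Helper28.Para

section

variable {X : Type v} {G : Type u} [Group G]

/-- The Magnus system on the quotient. -/
theorem quot_sys {c : G → List X → ℚ} (hc : MagnusSys X (fun _ => True) G c)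
    (hlcs : ∀ n g h, g⁻¹ * h ∈ lcs G n ↔ ∀ v : List X, v.length ≤ n → c g v = c h v) (k : ℕ) :
    ∃ c' : G ⧸ lcs G k → List X → ℚ, MagnusSys X (fun i => i ≤ k) (G ⧸ lcs G k) c' ∧
      ∀ g v, v.length ≤ k → c' (QuotientGroup.mk g) v = c g v := by
  have hout : ∀ (g : G) (v : List X), v.length ≤ k →
      c (Quotient.out (QuotientGroup.mk g : G ⧸ lcs G k)) v = c g v := by
    intro g v hv
    have h1 : (QuotientGroup.mk (Quotient.out (QuotientGroup.mk g : G ⧸ lcs G k)) : G ⧸ lcs G k) =
        QuotientGroup.mk g := QuotientGroup.out_eq' _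
    rw [QuotientGroup.eq] at h1
    exact (hlcs k _ _).1 h1 v hv
  refine ⟨fun y v => c (Quotient.out y) v, ?_, hout⟩
  constructor
  · intro i j hij hj; omega
  · omega
  · intro g; exact hc.nil _
  · intro x y v hv
    obtain ⟨g, rfl⟩ := QuotientGroup.mk_surjective x
    obtain ⟨h, rfl⟩ := QuotientGroup.mk_surjective y
    have h2 : (QuotientGroup.mk g : G ⧸ lcs G k) * QuotientGroup.mk h = QuotientGroup.mk (g * h) :=
      rfl
    change c (Quotient.out ((QuotientGroup.mk g : G ⧸ lcs G k) * QuotientGroup.mk h)) v = _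
    rw [h2, hout _ v hv, hc.mul g h v trivial]
    apply Finset.sum_congr rfl
    intro i _
    rw [hout g _ (by rw [List.length_take]; omega), hout h _ (by rw [List.length_drop]; omega)]
  · intro x y hxy
    obtain ⟨g, rfl⟩ := QuotientGroup.mk_surjective x
    obtain ⟨h, rfl⟩ := QuotientGroup.mk_surjective y
    rw [QuotientGroup.eq]
    apply (hlcs k g h).2
    intro v hv
    have := hxy v hv
    change c (Quotient.out (QuotientGroup.mk g : G ⧸ lcs G k)) v =
      c (Quotient.out (QuotientGroup.mk h : G ⧸ lcs G k)) v at this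
    rw [hout g v hv, hout h v hv] at this
    exact this

/-- Everything about the orders. -/
theorem exists_orders (hG : IsParafreeOn X G) :
    ∃ (oG : LinearOrder G) (oN : ∀ k, LinearOrder (G ⧸ lcs G k)),
      (∀ a b x : G, oG.lt a b → oG.lt (x * a) (x * b)) ∧
      (∀ a b x : G, oG.lt a b → oG.lt (a * x) (b * x)) ∧
      (∀ k, ∀ a b x : G ⧸ lcs G k, (oN k).lt a b → (oN k).lt (x * a) (x * b)) ∧
      (∀ k, ∀ a b x : G ⧸ lcs G k, (oN k).lt a b → (oN k).lt (a * x) (b * x)) ∧
      (∀ k, ∀ a b : G, oG.le a b → (oN k).le (QuotientGroup.mk a) (QuotientGroup.mk b)) := by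
  obtain ⟨c, hc, _, _, hlcs⟩ := Helper34.PC.magg hG (Helper67.PC.magf X)
  choose c' hc' hcc' using quot_sys hc hlcs
  obtain ⟨oG, hG1, hG2, hG3⟩ := Helper5.PC.ord hc (WellOrderingRel : X → X → Prop)
  choose oN hN1 hN2 hN3 using fun k => Helper5.PC.ord (hc' k) (WellOrderingRel : X → X → Prop)
  refine ⟨oG, oN, hG1, hG2, hN1, hN2, ?_⟩
  intro k a b hab
  have hcases : oG.lt a b ∨ a = b := by
    by_cases h : a = b
    · exact Or.inr h
    · left
      rw [oG.lt_iff_le_not_ge]
      exact ⟨hab, fun h' => h (oG.le_antisymm _ _ hab h')⟩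
  rcases hcases with h | h
  · obtain ⟨v, _, hv1, hv2⟩ := (hG3 a b).1 h
    by_cases hvk : v.length ≤ k
    · have h3 : (oN k).lt (QuotientGroup.mk a) (QuotientGroup.mk b) := by
        rw [hN3]
        refine ⟨v, hvk, ?_, ?_⟩
        · intro v' hv'
          have hl : v'.length ≤ k := by
            rcases List.shortlex_def.1 hv' with h5 | ⟨h5, _⟩ <;> omega
          rw [hcc' k a v' hl, hcc' k b v' hl]
          exact hv1 v' hv'
        · rw [hcc' k a v hvk, hcc' k b v hvk]
          exact hv2
      exact (((oN k).lt_iff_le_not_ge _ _).1 h3).1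
    · have h4 : (QuotientGroup.mk a : G ⧸ lcs G k) = QuotientGroup.mk b := by
        rw [QuotientGroup.eq]
        apply (hlcs k a b).2
        intro v' hv'
        exact hv1 v' (List.Shortlex.of_length_lt (by omega))
      rw [h4]
  · rw [h]

end

end Pool.Agent.Helper11.PC
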