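import Pool.Agent.Helper11.PC.Core
import Pool.Agent.Helper11.PC.Nil
import Pool.Agent.Helper11.PC.Sys
import Pool.Agent.Helper40.PC.OREG
import Pool.Agent.Helper3.PC.FOX
import Pool.Agent.Helper83.PC.NEU
import Pool.Agent.Helper75.PC.GROW
import Pool.Agent.Helper49.PC.GEO
import Pool.Agent.Helper16.PC.FREEX
import Pool.Agent.Helper11.PK.Basis

/-! # The inertness theorem, core form -/

set_option linter.unusedSectionVars false
set_option linter.style.haveILetI false

namespace Pool.Agent.Helper11.PC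

universe u v w

open MonoidAlgebra Pool.Agent.Helper28.Para

section

variable {X : Type v} {G : Type u} [Group G]

theorem quot_props (hG : IsParafreeOn X G) (k : ℕ) : PolyGrowth (G ⧸ lcs G k) ∧
    ∀ z : MonoidAlgebra ℚ (G ⧸ lcs G k), (∀ q : ℕ, z ∈ (aug (G ⧸ lcs G k)) ^ q) → z = 0 := by
  obtain ⟨c, hc, hint, hfin, hlcs⟩ := Helper34.PC.magg hG (Helper67.PC.magf X)
  obtain ⟨c', hc', hcc'⟩ := quot_sys hc hlcs k
  refine ⟨Helper75.PC.grow hc' ?_ ?_, fun z hz => Helper2.PC.sep hc' z hz⟩
  · intro g v hv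
    obtain ⟨g, rfl⟩ := QuotientGroup.mk_surjective g
    rw [hcc' g v hv]
    exact hint g v
  · intro g
    obtain ⟨g, rfl⟩ := QuotientGroup.mk_surjective g
    obtain ⟨X0, hX0⟩ := hfin g k
    refine ⟨X0, fun v hv hne => hX0 v hv ?_⟩
    rwa [hcc' g v hv] at hne

theorem isFox_gl {n : ℕ} {b : Fin n → G} {c : G} {W : Fin n → MonoidAlgebra ℚ G}
    (h : IsFox b c W) : gl c - 1 = ∑ j, W j * (gl (b j) - 1) := by
  have := h (MonoidAlgebra ℚ G) (fun g => gl g - 1) (by
    intro g h
    rw [smul_eq_mul, mul_sub, mul_one]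
    have : gl (g * h) = gl g * gl h := by
      rw [MonoidAlgebra.single_mul_single, one_mul]
    rw [this]; abel)
  exact this

/-- **Inertness, core form.** -/
theorem inert_core (hG : IsParafreeOn X G) {r n m : ℕ} (a : Fin r → G) (hind : HomIndep a)
    (b : Fin n → G) {Y : Type w} (c : Y → G) (hc : Function.Injective (FreeGroup.lift c))
    (hcC : Subgroup.closure (Set.range c) =
      Subgroup.closure (Set.range a) ⊓ Subgroup.closure (Set.range b))
    (y : Fin m → Y) (hy : Function.Injective y) (hmn : n < m) : False := by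
  obtain ⟨oG, oN, hG1, hG2, hN1, hN2, hmon⟩ := exists_orders hG
  letI := oG
  letI := oN
  haveI : MulLeftStrictMono G := ⟨fun x a b h => hG1 a b x h⟩
  haveI : MulRightStrictMono G := ⟨fun x a b h => hG2 a b x h⟩
  haveI : ∀ k, MulLeftStrictMono (G ⧸ lcs G k) := fun k => ⟨fun x a b h => hN1 k a b x h⟩
  haveI : ∀ k, MulRightStrictMono (G ⧸ lcs G k) := fun k => ⟨fun x a b h => hN2 k a b x h⟩
  have hcm : ∀ i, c (y i) ∈ Subgroup.closure (Set.range a) ⊓ Subgroup.closure (Set.range b) := by
    intro i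
    rw [← hcC]
    exact Subgroup.subset_closure ⟨y i, rfl⟩
  choose W hW hWB using fun i => Helper3.PC.fox b (c (y i)) (hcm i).2
  choose α hα hαA using fun i => Helper3.PC.fox a (c (y i)) (hcm i).1
  refine core (N := fun k => G ⧸ lcs G k)
    (fun G _ _ _ _ S hS h1 => Helper83.PC.neu hS h1) (fun G _ _ _ _ y hy h1 => Helper49.PC.geo (fun hS h1 => Helper83.PC.neu hS h1) hy h1)
    (fun k => QuotientGroup.mk' (lcs G k)) (fun k a b h => hmon k a b h) ?_ ?_ ?_
    (Subgroup.closure (Set.range a)) (Subgroup.closure (Set.range b)) _ hcC hmn a rfl c hc rfl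
    y hy W hWB α hαA (fun i => isFox_gl (hα i)) ?_
  · intro i j hij x hx
    change QuotientGroup.mk x = (1 : G ⧸ lcs G j) at hx
    change QuotientGroup.mk x = (1 : G ⧸ lcs G i)
    rw [QuotientGroup.eq_one_iff] at hx ⊢
    exact (⊤ : Subgroup G).lowerCentralSeries_antitone hij hx
  · intro x hx
    by_contra hcon
    push Not at hcon
    apply hx
    apply hG.resNilpotent
    intro n
    have := hcon n
    change QuotientGroup.mk x = (1 : G ⧸ lcs G n) at this
    rwa [QuotientGroup.eq_one_iff] at this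
  · intro k
    exact Helper40.PC.oreg (quot_props hG k).1
  · intro k u hu
    exact nil_rel hG a hind b (fun i => c (y i)) W hW α hα k (quot_props hG k).2 u hu

/-- **Homologically embedded free subgroups are inert.** -/
theorem inert_hom (hG : IsParafreeOn X G) {r n : ℕ} (a : Fin r → G) (hind : HomIndep a)
    (b : Fin n → G) :
    ∃ k ≤ n, ∃ c : Fin k → G, Function.Injective (FreeGroup.lift c : FreeGroup (Fin k) →* G) ∧
      Subgroup.closure (Set.range c) =
        Subgroup.closure (Set.range a) ⊓ Subgroup.closure (Set.range b) := by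
  refine Helper11.PK.exists_basis a (Helper16.PC.freex hG a hind) _ inf_le_left n ?_
  intro Y c hc hcC y hy
  exact inert_core hG a hind b c hc hcC y hy (Nat.lt_succ_self n)

end

end Pool.Agent.Helper11.PC
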